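import Pool.Agent.FBalanced.Uniform

/-! Every F-balanced group is balanced. -/

set_option autoImplicit false
open scoped Pointwise Topology Cardinal

namespace Pool.Agent.FBalanced

variable {G : Type} [Group G] [TopologicalSpace G] [IsTopologicalGroup G]

/-- Construction by recursion along a well-founded order. -/
theorem exists_rec {ι β : Type} [LinearOrder ι] [WellFoundedLT ι]
    (P : ∀ i : ι, (∀ j : ι, j < i → β) → β → Prop)
    (h : ∀ (i : ι) (f : ∀ j : ι, j < i → β), ∃ b, P i f b) :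
    ∃ F : ι → β, ∀ i, P i (fun j _ => F j) (F i) := by
  choose b hb using h
  have wf : WellFounded (fun a b : ι => a < b) := wellFounded_lt
  refine ⟨wf.fix b, fun i => ?_⟩
  have h1 : wf.fix b i = b i (fun j _ => wf.fix b j) := wf.fix_eq b i
  rw [h1]
  exact hb i _

/-- A cardinal at which some identity neighbourhood stops containing uniformly separated sets,
minimal with this property. -/
theorem exists_theta (G : Type) [Group G] [TopologicalSpace G] :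
    ∃ θ : Cardinal.{0}, ℵ₀ ≤ θ ∧
      (∃ A ∈ 𝓝 (1 : G), ∀ V ∈ 𝓝 (1 : G), ∀ D ⊆ A, Sep V D → #D < θ) ∧
      ∀ κ < θ, ℵ₀ ≤ κ → Wide G κ := by
  set S : Set Cardinal.{0} := {θ | ℵ₀ ≤ θ ∧
    ∃ A ∈ 𝓝 (1 : G), ∀ V ∈ 𝓝 (1 : G), ∀ D ⊆ A, Sep V D → #D < θ} with hS
  have hne : S.Nonempty := by
    refine ⟨max ℵ₀ (Order.succ #G), le_max_left _ _, Set.univ, Filter.univ_mem, ?_⟩
    intro V _ D _ _
    exact ((Cardinal.mk_set_le D).trans_lt (Order.lt_succ _)).trans_le (le_max_right _ _)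
  have hmem : sInf S ∈ S := csInf_mem hne
  refine ⟨sInf S, hmem.1, hmem.2, ?_⟩
  intro κ hκ hκ0 A hA
  by_contra hcon
  push Not at hcon
  have : κ ∈ S := ⟨hκ0, A, hA, fun V hV D hD hsep => hcon V hV D hD hsep⟩
  exact absurd (csInf_le' this) (not_le.2 hκ)

theorem no_bad (hF : ∀ X : Set G, ∀ U ∈ 𝓝 (1 : G), ∃ V ∈ 𝓝 (1 : G), V * X ⊆ X * U)
    {U₀ : Set G} (hU₀ : U₀ ∈ 𝓝 (1 : G))
    (hbad : ∀ V ∈ 𝓝 (1 : G), ∃ v ∈ V, ∃ x : G, x⁻¹ * v * x ∉ U₀) : False := by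
  obtain ⟨U₁, hU₁, hU₁s, h1U₁, hU₁5⟩ := exists_small U₀ hU₀ 5
  obtain ⟨θ, hθ, ⟨A₀, hA₀, hnarrow⟩, hwide⟩ := exists_theta G
  -- the recursion
  obtain ⟨p, hp⟩ := exists_rec (ι := θ.ord.ToType) (β := G × G)
    (fun i f b => b.1 ∈ A₀ ∧ (∀ (j : θ.ord.ToType) (hj : j < i),
      (f j hj).2⁻¹ * b.1 * (f j hj).2 ∈ U₁ ∧
      ((f j hj).1 * (f j hj).2)⁻¹ * b.1 * ((f j hj).1 * (f j hj).2) ∈ U₁) ∧
      b.2⁻¹ * b.1 * b.2 ∉ U₀) (by
    intro i f
    have hlt : #(Set.Iio i) < θ := by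
      simpa using Cardinal.mk_Iio_lt i (by simp)
    have hgood : ∀ φ : Set.Iio i → G,
        {g : G | ∀ y ∈ Set.range φ, y⁻¹ * g * y ∈ U₁} ∈ 𝓝 (1 : G) := by
      intro φ
      refine conj_wide hF hU₁ fun hinf => hwide _ ?_ hinf
      exact (Cardinal.mk_range_le).trans_lt hlt
    obtain ⟨v, hv, x, hx⟩ := hbad _ (Filter.inter_mem hA₀ (Filter.inter_mem
      (hgood fun j => (f j.1 j.2).2) (hgood fun j => (f j.1 j.2).1 * (f j.1 j.2).2)))
    refine ⟨(v, x), hv.1, fun j hj => ⟨?_, ?_⟩, hx⟩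
    · exact hv.2.1 _ ⟨⟨j, hj⟩, rfl⟩
    · exact hv.2.2 _ ⟨⟨j, hj⟩, rfl⟩)
  have hinv : ∀ {a : G} {m : ℕ}, a ∈ U₁ ^ m → a⁻¹ ∈ U₁ ^ m := fun h => inv_mem_pow hU₁s h
  obtain ⟨V₀, hV₀, hV₀X⟩ := hF (Set.range fun i => (p i).2) U₁ hU₁
  set V : Set G := V₀ ∩ V₀⁻¹ with hVdef
  have hV : V ∈ 𝓝 (1 : G) := Filter.inter_mem hV₀ (inv_mem_nhds hV₀)
  have hVs : ∀ w ∈ V, w⁻¹ ∈ V := by
    rintro w ⟨h1, h2⟩
    exact ⟨h2, by rw [Set.mem_inv, inv_inv]; exact h1⟩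
  -- two close elements of the sequence
  obtain ⟨a, b, hba, hclose⟩ : ∃ a b : θ.ord.ToType, b < a ∧ (p a).1⁻¹ * (p b).1 ∈ V := by
    by_contra hcon
    push Not at hcon
    have hall : ∀ a b : θ.ord.ToType, (p a).1⁻¹ * (p b).1 ∈ V → a = b := by
      intro a b hab
      rcases lt_trichotomy a b with h | h | h
      · have := hVs _ hab
        rw [mul_inv_rev, inv_inv] at this
        exact absurd this (hcon b a h)
      · exact h
      · exact absurd hab (hcon a b h)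
    have hinj : Function.Injective fun i : θ.ord.ToType => (p i).1 := by
      intro a b hab
      apply hall
      have hab' : (p a).1 = (p b).1 := hab
      rw [hab', inv_mul_cancel]
      exact mem_of_mem_nhds hV
    have h1 : #(Set.range fun i : θ.ord.ToType => (p i).1) < θ := by
      apply hnarrow V hV
      · rintro _ ⟨i, rfl⟩; exact (hp i).1
      · rintro _ ⟨i, rfl⟩ _ ⟨j, rfl⟩ hij
        rw [hall i j hij]
    rw [Cardinal.mk_range_eq _ hinj, Cardinal.mk_ord_toType] at h1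
    exact lt_irrefl _ h1
  -- the point `y = n_b x_b`
  set y : G := (p b).1 * (p b).2 with hy
  obtain ⟨_, ⟨c, rfl⟩, u, hu, hcu⟩ := hV₀X (Set.mul_mem_mul hclose.1
    (⟨b, rfl⟩ : (p b).2 ∈ Set.range fun i => (p i).2))
  have hcu' : (p c).2 * u = (p a).1⁻¹ * (p b).1 * (p b).2 := hcu
  have hya : y⁻¹ * (p a).1 * y ∈ U₁ := ((hp a).2.1 b hba).2
  set w : G := u * (y⁻¹ * (p a).1 * y) with hw
  have hw2 : w ∈ U₁ ^ 2 := mul_mem_pow (mem_pow_one hu) (mem_pow_one hya)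
  have hyw : y = (p c).2 * w := by
    calc y = ((p a).1⁻¹ * (p b).1 * (p b).2) * (y⁻¹ * (p a).1 * y) := by
          rw [hy]; group
      _ = ((p c).2 * u) * (y⁻¹ * (p a).1 * y) := by rw [hcu']
      _ = (p c).2 * w := by rw [hw]; group
  rcases lt_trichotomy c b with h | h | h
  · -- `c < b`
    apply (hp b).2.2
    apply hU₁5
    have h1 : (p b).2⁻¹ * (p b).1 * (p b).2 = w⁻¹ * ((p c).2⁻¹ * (p b).1 * (p c).2) * w := by
      have h2 : (p b).2 = (p b).1⁻¹ * ((p c).2 * w) := by rw [← hyw, hy]; group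
      calc (p b).2⁻¹ * (p b).1 * (p b).2
          = ((p b).1⁻¹ * ((p c).2 * w))⁻¹ * (p b).1 * ((p b).1⁻¹ * ((p c).2 * w)) := by rw [← h2]
        _ = w⁻¹ * ((p c).2⁻¹ * (p b).1 * (p c).2) * w := by group
    rw [h1]
    exact mul_mem_pow (mul_mem_pow (hinv hw2) (mem_pow_one ((hp b).2.1 c h).1)) hw2
  · -- `c = b`
    subst h
    apply (hp c).2.2
    apply hU₁5
    have h1 : (p c).2⁻¹ * (p c).1 * (p c).2 = w := by
      calc (p c).2⁻¹ * (p c).1 * (p c).2 = (p c).2⁻¹ * y := by rw [hy]; group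
        _ = (p c).2⁻¹ * ((p c).2 * w) := by rw [← hyw]
        _ = w := by group
    rw [h1]
    exact pow_sub_pow h1U₁ (by norm_num) hw2
  · -- `b < c`
    apply (hp c).2.2
    apply hU₁5
    have h1 : (p c).2⁻¹ * (p c).1 * (p c).2 = w * (y⁻¹ * (p c).1 * y) * w⁻¹ := by
      have h2 : (p c).2 = y * w⁻¹ := by rw [hyw]; group
      calc (p c).2⁻¹ * (p c).1 * (p c).2 = (y * w⁻¹)⁻¹ * (p c).1 * (y * w⁻¹) := by rw [← h2]
        _ = w * (y⁻¹ * (p c).1 * y) * w⁻¹ := by group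
    rw [h1]
    exact mul_mem_pow (mul_mem_pow hw2 (mem_pow_one ((hp c).2.1 b h).2)) (hinv hw2)

/-- Every F-balanced topological group is balanced. -/
theorem balanced_of_fbalanced (G : Type) [Group G] [TopologicalSpace G] [IsTopologicalGroup G]
    (hF : ∀ X : Set G, ∀ U ∈ 𝓝 (1 : G), ∃ V ∈ 𝓝 (1 : G), V * X ⊆ X * U)
    (U : Set G) (hU : U ∈ 𝓝 (1 : G)) :
    ∃ V ∈ 𝓝 (1 : G), V ⊆ U ∧ ∀ g x : G, x ∈ V → g * x * g⁻¹ ∈ V := by
  by_contra hcon
  push Not at hcon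
  refine no_bad hF hU fun V hV => ?_
  by_contra hgood
  push Not at hgood
  obtain ⟨g, x, ⟨v, hv, z, rfl⟩, hgx⟩ := hcon {t | ∃ v ∈ V, ∃ x : G, t = x⁻¹ * v * x}
    (Filter.mem_of_superset hV fun v hv => ⟨v, hv, 1, by group⟩)
    (by rintro _ ⟨v, hv, x, rfl⟩; exact hgood v hv x)
  exact hgx ⟨v, hv, z * g⁻¹, by group⟩

end Pool.Agent.FBalanced
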