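import Pool.Agent.FBalanced.Markers

/-! Conjugation is uniformly continuous along sets of bounded size. -/

set_option autoImplicit false
open scoped Pointwise Topology Cardinal

namespace Pool.Agent.FBalanced

variable {G : Type} [Group G] [TopologicalSpace G] [IsTopologicalGroup G]

theorem conj_uniform (hF : ∀ X : Set G, ∀ U ∈ 𝓝 (1 : G), ∃ V ∈ 𝓝 (1 : G), V * X ⊆ X * U)
    {C V D U₁ U₂ Y : Set G} (hC : C ∈ 𝓝 (1 : G)) (hCs : C⁻¹ = C) (hV : V ∈ 𝓝 (1 : G))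
    (hDC : D ⊆ C) (hsep : Sep V D) (hinf : ℵ₀ ≤ #D) (hU₂ : U₂⁻¹ = U₂) (h14 : C ^ 14 ⊆ U₂)
    (h3 : U₂ ^ 3 ⊆ U₁) (hY : #Y ≤ #D) :
    {g : G | ∀ y ∈ Y, y⁻¹ * g * y ∈ U₁} ∈ 𝓝 (1 : G) := by
  have hC1 : (1 : G) ∈ C := mem_of_mem_nhds hC
  have hC714 : C ^ 7 ⊆ U₂ := (pow_sub_pow hC1 (by norm_num)).trans h14
  have h1U₂ : (1 : G) ∈ U₂ := h14 (pow_sub_pow hC1 (by norm_num : 0 ≤ 14) (by simp))
  have hU₂inv : ∀ {a : G}, a ∈ U₂ → a⁻¹ ∈ U₂ := by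
    intro a ha; rw [← hU₂, Set.mem_inv, inv_inv]; exact ha
  obtain ⟨U', hU', hU'C, F, hFp, hFsep, hFc⟩ := markers hF hC hCs hV hDC hsep hinf
  obtain ⟨Y', hY'Y, hY'1, hY'2⟩ := exists_max_indep (fun y y' : G => y⁻¹ * y' ∈ U₂)
    (fun a b hab => by
      have := hU₂inv hab
      simpa using this) (fun a => by simpa using h1U₂) Y
  have hcard : #Y' ≤ #F := ((Cardinal.mk_le_mk_of_subset hY'Y).trans hY).trans hFc
  obtain ⟨f⟩ := Cardinal.le_def _ _ |>.1 hcard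
  set X : Set G := {x | ∃ y : Y', ∃ e ∈ (f y : Set G), x = y * e} with hXdef
  obtain ⟨W, hW, hWX⟩ := hF X U' hU'
  refine Filter.mem_of_superset (Filter.inter_mem hW (inv_mem_nhds hW)) ?_
  -- one step
  have step : ∀ g ∈ W, ∀ y : Y', ∀ e ∈ (f y : Set G), ∃ y' : Y', ∃ e' ∈ (f y' : Set G),
      e'⁻¹ * (((y' : G)⁻¹ * g * y) * e) ∈ U' ∧ (y' : G)⁻¹ * g * y ∈ C ^ 7 := by
    intro g hg y e he
    obtain ⟨x, ⟨y', e', he', rfl⟩, u, hu, hxu⟩ := hWX (Set.mul_mem_mul hg ⟨y, e, he, rfl⟩)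
    have hxu' : (y' : G) * e' * u = g * (y * e) := hxu
    refine ⟨y', e', he', ?_, ?_⟩
    · have : e'⁻¹ * (((y' : G)⁻¹ * g * y) * e) = u := by
        calc e'⁻¹ * (((y' : G)⁻¹ * g * y) * e) = e'⁻¹ * (y' : G)⁻¹ * (g * (y * e)) := by group
          _ = e'⁻¹ * (y' : G)⁻¹ * (y' * e' * u) := by rw [hxu']
          _ = u := by group
      rw [this]; exact hu
    · have : (y' : G)⁻¹ * g * y = e' * u * e⁻¹ := by
        calc (y' : G)⁻¹ * g * y = (y' : G)⁻¹ * (g * (y * e)) * e⁻¹ := by group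
          _ = (y' : G)⁻¹ * (y' * e' * u) * e⁻¹ := by rw [hxu']
          _ = e' * u * e⁻¹ := by group
      rw [this]
      exact mul_mem_pow (mul_mem_pow ((hFp _ (f y').2).2 he') (mem_pow_one (hU'C hu)))
        (inv_mem_pow hCs ((hFp _ (f y).2).2 he))
  rintro g ⟨hg, hg'⟩
  have hCi : ∀ {a : G} {m : ℕ}, a ∈ C ^ m → a⁻¹ ∈ C ^ m := fun h => inv_mem_pow hCs h
  -- the claim for the separated set
  have claim : ∀ y : Y', (y : G)⁻¹ * g * y ∈ C ^ 7 := by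
    intro y
    obtain ⟨e₀, he₀⟩ := (hFp _ (f y).2).1
    obtain ⟨y', e₁, he₁, -, h7⟩ := step g hg y e₀ he₀
    have hEq : Eqv U' (f y : Set G) (f y' : Set G) := by
      refine ⟨(y' : G)⁻¹ * g * y, ?_, ?_⟩
      · intro e he
        obtain ⟨y₁, e', he', hu, h7'⟩ := step g hg y e he
        have hyy : (y₁ : G) = y' := by
          apply hY'1 y₁ y₁.2 y' y'.2
          show (y₁ : G)⁻¹ * y' ∈ U₂
          apply h14
          have : (y₁ : G)⁻¹ * y' = ((y₁ : G)⁻¹ * g * y) * ((y' : G)⁻¹ * g * y)⁻¹ := by group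
          rw [this]
          exact mul_mem_pow h7' (hCi h7)
        have hyy' : y₁ = y' := Subtype.ext hyy
        subst hyy'
        exact ⟨e', he', hu⟩
      · intro e' he'
        obtain ⟨y₁, e, he, hu, h7'⟩ := step g⁻¹ hg' y' e' he'
        have hyy : (y₁ : G) = y := by
          apply hY'1 y₁ y₁.2 y y.2
          show (y₁ : G)⁻¹ * y ∈ U₂
          apply h14
          have : (y₁ : G)⁻¹ * y = ((y₁ : G)⁻¹ * g⁻¹ * y') * ((y' : G)⁻¹ * g * y) := by group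
          rw [this]
          exact mul_mem_pow h7' h7
        have hyy' : y₁ = y := Subtype.ext hyy
        subst hyy'
        refine ⟨e, he, ?_⟩
        have : ((y' : G)⁻¹ * g * y₁)⁻¹ = (y₁ : G)⁻¹ * g⁻¹ * y' := by group
        rw [this]; exact hu
    have h1 : f y = f y' := Subtype.ext (hFsep _ (f y).2 _ (f y').2 hEq)
    have h2 : y = y' := f.injective h1
    rw [← h2] at h7
    exact h7
  intro y hy
  obtain ⟨y', hy', hyy⟩ := hY'2 y hy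
  have h1 : y⁻¹ * g * y = (y'⁻¹ * y)⁻¹ * (y'⁻¹ * g * y') * (y'⁻¹ * y) := by group
  rw [h1]
  apply h3
  exact mul_mem_pow (mul_mem_pow (mem_pow_one (hU₂inv hyy)) (mem_pow_one (hC714 (claim ⟨y', hy'⟩))))
    (mem_pow_one hyy)

theorem conj_finite {U₁ Y : Set G} (hU₁ : U₁ ∈ 𝓝 (1 : G)) (hY : Y.Finite) :
    {g : G | ∀ y ∈ Y, y⁻¹ * g * y ∈ U₁} ∈ 𝓝 (1 : G) := by
  have h : {g : G | ∀ y ∈ Y, y⁻¹ * g * y ∈ U₁} = ⋂ y ∈ Y, {g : G | y⁻¹ * g * y ∈ U₁} := by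
    ext g; simp
  rw [h, Filter.biInter_mem hY]
  intro y _
  have hc : Continuous fun g : G => y⁻¹ * g * y := by fun_prop
  have h2 := hc.continuousAt (x := (1 : G))
  have h3 : U₁ ∈ 𝓝 (y⁻¹ * 1 * y) := by simpa using hU₁
  exact h2 h3

/-- Every identity neighbourhood contains large uniformly separated sets. -/
def Wide (G : Type) [Group G] [TopologicalSpace G] (κ : Cardinal.{0}) : Prop :=
  ∀ A ∈ 𝓝 (1 : G), ∃ V ∈ 𝓝 (1 : G), ∃ D ⊆ A, Sep V D ∧ κ ≤ #D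

theorem conj_wide (hF : ∀ X : Set G, ∀ U ∈ 𝓝 (1 : G), ∃ V ∈ 𝓝 (1 : G), V * X ⊆ X * U)
    {U₁ Y : Set G} (hU₁ : U₁ ∈ 𝓝 (1 : G)) (hY : ℵ₀ ≤ #Y → Wide G #Y) :
    {g : G | ∀ y ∈ Y, y⁻¹ * g * y ∈ U₁} ∈ 𝓝 (1 : G) := by
  by_cases hfin : Y.Finite
  · exact conj_finite hU₁ hfin
  have hinf : ℵ₀ ≤ #Y := by
    rw [Cardinal.aleph0_le_mk_iff]
    exact Set.infinite_coe_iff.2 hfin
  obtain ⟨U₂, hU₂, hU₂s, -, hU₂3⟩ := exists_small U₁ hU₁ 3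
  obtain ⟨C, hC, hCs, -, hC14⟩ := exists_small U₂ hU₂ 14
  obtain ⟨V, hV, D, hDC, hsep, hYD⟩ := hY hinf C hC
  exact conj_uniform hF hC hCs hV hDC hsep (hinf.trans hYD) hU₂s hC14 hU₂3 hYD

end Pool.Agent.FBalanced
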